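import Pool.Agent.TH703.HU.Stm

/-!
# Project HU, C5: the isoperimetric inequality near the vertex `1`
-/

set_option autoImplicit false

open MeasureTheory Set Metric Filter Topology
open scoped ENNReal Real

noncomputable section

namespace Pool.Agent.TH946.HU

open Pool.Agent.TH304.MI Pool.Agent.TH703.HU

/-! ## Fubini on `ℂ` -/

lemma mk_meas : Measurable (fun p : ℝ × ℝ => (⟨p.1, p.2⟩ : ℂ)) :=
  Complex.measurableEquivRealProd.symm.measurable

lemma lint_prod (f : ℂ → ℝ≥0∞) (hf : Measurable f) :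
    ∫⁻ z, f z = ∫⁻ p : ℝ × ℝ, f ⟨p.1, p.2⟩ :=
  ((Complex.volume_preserving_equiv_real_prod.symm).lintegral_comp hf).symm

lemma fub_h (f : ℂ → ℝ≥0∞) (hf : Measurable f) :
    ∫⁻ z, f z = ∫⁻ y : ℝ, ∫⁻ x : ℝ, f ⟨x, y⟩ := by
  rw [lint_prod f hf, Measure.volume_eq_prod]
  exact lintegral_prod_symm' (fun p : ℝ × ℝ => f ⟨p.1, p.2⟩) (hf.comp mk_meas)

lemma fub_v (f : ℂ → ℝ≥0∞) (hf : Measurable f) :
    ∫⁻ z, f z = ∫⁻ x : ℝ, ∫⁻ y : ℝ, f ⟨x, y⟩ := by
  rw [lint_prod f hf, Measure.volume_eq_prod]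
  exact lintegral_prod (fun p : ℝ × ℝ => f ⟨p.1, p.2⟩) (hf.comp mk_meas).aemeasurable

lemma mh (y : ℝ) : Measurable (fun t : ℝ => (⟨t, y⟩ : ℂ)) :=
  mk_meas.comp (measurable_id.prodMk measurable_const)

lemma mv (x : ℝ) : Measurable (fun t : ℝ => (⟨x, t⟩ : ℂ)) :=
  mk_meas.comp (measurable_const.prodMk measurable_id)

lemma vol_h (G : Set ℂ) (hG : MeasurableSet G) :
    volume G = ∫⁻ y : ℝ, volume {x : ℝ | (⟨x, y⟩ : ℂ) ∈ G} := by
  have h := fub_h (G.indicator (fun _ => (1 : ℝ≥0∞))) (measurable_const.indicator hG)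
  rw [lintegral_indicator_const hG, one_mul] at h
  rw [h]
  refine lintegral_congr fun y => ?_
  have : (fun x : ℝ => G.indicator (fun _ => (1 : ℝ≥0∞)) (⟨x, y⟩ : ℂ)) =
      {x : ℝ | (⟨x, y⟩ : ℂ) ∈ G}.indicator (fun _ => (1 : ℝ≥0∞)) := by
    funext x
    by_cases hx : (⟨x, y⟩ : ℂ) ∈ G <;> simp [Set.indicator, hx]
  rw [this]
  exact (lintegral_indicator_const (mh y hG) 1).trans (one_mul _)

lemma vol_v (G : Set ℂ) (hG : MeasurableSet G) :
    volume G = ∫⁻ x : ℝ, volume {y : ℝ | (⟨x, y⟩ : ℂ) ∈ G} := by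
  have h := fub_v (G.indicator (fun _ => (1 : ℝ≥0∞))) (measurable_const.indicator hG)
  rw [lintegral_indicator_const hG, one_mul] at h
  rw [h]
  refine lintegral_congr fun x => ?_
  have : (fun y : ℝ => G.indicator (fun _ => (1 : ℝ≥0∞)) (⟨x, y⟩ : ℂ)) =
      {y : ℝ | (⟨x, y⟩ : ℂ) ∈ G}.indicator (fun _ => (1 : ℝ≥0∞)) := by
    funext y
    by_cases hx : (⟨x, y⟩ : ℂ) ∈ G <;> simp [Set.indicator, hx]
  rw [this]
  exact (lintegral_indicator_const (mv x hG) 1).trans (one_mul _)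

/-- Abscissas of the non-null vertical sections. -/
def prA (G : Set ℂ) : Set ℝ := {x : ℝ | 0 < volume {y : ℝ | (⟨x, y⟩ : ℂ) ∈ G}}

/-- Ordinates of the non-null horizontal sections. -/
def prB (G : Set ℂ) : Set ℝ := {y : ℝ | 0 < volume {x : ℝ | (⟨x, y⟩ : ℂ) ∈ G}}

lemma prA_meas (G : Set ℂ) (hG : MeasurableSet G) : MeasurableSet (prA G) := by
  have h : Measurable (fun x : ℝ => volume {y : ℝ | (⟨x, y⟩ : ℂ) ∈ G}) :=
    measurable_measure_prodMk_left (mk_meas hG)
  exact measurableSet_lt measurable_const h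

lemma prB_meas (G : Set ℂ) (hG : MeasurableSet G) : MeasurableSet (prB G) := by
  have h : Measurable (fun y : ℝ => volume {x : ℝ | (⟨x, y⟩ : ℂ) ∈ G}) :=
    measurable_measure_prodMk_right (mk_meas hG)
  exact measurableSet_lt measurable_const h

/-- A set is contained, up to a null set, in the product of its essential projections. -/
lemma prod_bound (G : Set ℂ) (hG : MeasurableSet G) :
    volume G ≤ volume (prA G) * volume (prB G) := by
  have hA := prA_meas G hG
  have hB := prB_meas G hG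
  have hN1m : MeasurableSet (G ∩ {z | z.re ∉ prA G}) :=
    hG.inter (Complex.measurable_re hA.compl)
  have hN2m : MeasurableSet (G ∩ {z | z.im ∉ prB G}) :=
    hG.inter (Complex.measurable_im hB.compl)
  have hRm : MeasurableSet {z : ℂ | z.re ∈ prA G ∧ z.im ∈ prB G} :=
    (Complex.measurable_re hA).inter (Complex.measurable_im hB)
  have hN1 : volume (G ∩ {z | z.re ∉ prA G}) = 0 := by
    rw [vol_v _ hN1m]
    refine (lintegral_eq_zero_iff (measurable_measure_prodMk_left (mk_meas hN1m))).2 ?_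
    refine Filter.Eventually.of_forall fun x => ?_
    show volume {y : ℝ | (⟨x, y⟩ : ℂ) ∈ G ∩ {z | z.re ∉ prA G}} = 0
    by_cases hx : x ∈ prA G
    · have : {y : ℝ | (⟨x, y⟩ : ℂ) ∈ G ∩ {z | z.re ∉ prA G}} = ∅ := by
        ext y; simp [hx]
      rw [this, measure_empty]
    · have h0 : volume {y : ℝ | (⟨x, y⟩ : ℂ) ∈ G} = 0 := by
        by_contra h
        exact hx (pos_iff_ne_zero.2 h)
      exact measure_mono_null (fun y hy => hy.1) h0
  have hN2 : volume (G ∩ {z | z.im ∉ prB G}) = 0 := by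
    rw [vol_h _ hN2m]
    refine (lintegral_eq_zero_iff (measurable_measure_prodMk_right (mk_meas hN2m))).2 ?_
    refine Filter.Eventually.of_forall fun x => ?_
    show volume {y : ℝ | (⟨y, x⟩ : ℂ) ∈ G ∩ {z | z.im ∉ prB G}} = 0
    by_cases hx : x ∈ prB G
    · have : {y : ℝ | (⟨y, x⟩ : ℂ) ∈ G ∩ {z | z.im ∉ prB G}} = ∅ := by
        ext y; simp [hx]
      rw [this, measure_empty]
    · have h0 : volume {y : ℝ | (⟨y, x⟩ : ℂ) ∈ G} = 0 := by
        by_contra h
        exact hx (pos_iff_ne_zero.2 h)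
      exact measure_mono_null (fun y hy => hy.1) h0
  have hR : volume {z : ℂ | z.re ∈ prA G ∧ z.im ∈ prB G} = volume (prA G) * volume (prB G) := by
    rw [vol_h _ hRm]
    have : ∀ y : ℝ, volume {x : ℝ | (⟨x, y⟩ : ℂ) ∈ {z : ℂ | z.re ∈ prA G ∧ z.im ∈ prB G}} =
        (prB G).indicator (fun _ => volume (prA G)) y := by
      intro y
      by_cases hy : y ∈ prB G
      · simp [hy]
      · simp [hy]
    simp only [this]
    rw [lintegral_indicator_const hB]
  calc volume G ≤ volume ((G ∩ {z | z.re ∉ prA G}) ∪ (G ∩ {z | z.im ∉ prB G}) ∪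
        {z : ℂ | z.re ∈ prA G ∧ z.im ∈ prB G}) := by
        refine measure_mono fun z hz => ?_
        by_cases h1 : z.re ∈ prA G
        · by_cases h2 : z.im ∈ prB G
          · exact Or.inr ⟨h1, h2⟩
          · exact Or.inl (Or.inr ⟨hz, h2⟩)
        · exact Or.inl (Or.inl ⟨hz, h1⟩)
    _ ≤ volume ((G ∩ {z | z.re ∉ prA G}) ∪ (G ∩ {z | z.im ∉ prB G})) +
        volume {z : ℂ | z.re ∈ prA G ∧ z.im ∈ prB G} := measure_union_le _ _
    _ ≤ (0 + 0) + volume {z : ℂ | z.re ∈ prA G ∧ z.im ∈ prB G} := by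
        gcongr
        exact (measure_union_le _ _).trans (by rw [hN1, hN2])
    _ = volume (prA G) * volume (prB G) := by rw [hR]; simp

/-! ## The tail on one line -/

lemma line_tail (c3 : S_C3) (f : ℝ → ℝ) (S : Set ℝ) (η κ : ℝ) (hf : Continuous f)
    (hf0 : ∀ t, 0 ≤ f t) (hfi : Integrable f) (hanti : ∀ a a', 0 ≤ a → a ≤ a' → f a' ≤ f a)
    (hS : MeasurableSet S) (hsub : S ⊆ Ioi (2 / 5)) (hκ : 0 ≤ κ)
    (htail : ∀ a, 1 / 2 ≤ a → ∫ t in Ioi a, f t ≤ κ * f a) :
    ∫⁻ t in S ∩ Ici (1 / 2), ENNReal.ofReal (f t) ≤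
      ENNReal.ofReal κ * (ev (fun t => max 0 (f t - η)) S + ENNReal.ofReal η) := by
  by_cases hN : volume S = 0
  · have : volume (S ∩ Ici (1 / 2)) = 0 := measure_mono_null inter_subset_left hN
    rw [setLIntegral_measure_zero _ _ this]
    exact zero_le
  set T : Set ℝ := {t : ℝ | volume (S ∩ Iio t) = 0} with hT
  have hT0 : (2 / 5 : ℝ) ∈ T := by
    have : S ∩ Iio (2 / 5) = ∅ := by
      ext x
      simp only [mem_inter_iff, mem_Iio, mem_empty_iff_false, iff_false, not_and, not_lt]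
      intro hx
      exact le_of_lt (hsub hx)
    show volume (S ∩ Iio (2 / 5)) = 0
    rw [this, measure_empty]
  have hlow : ∀ s t : ℝ, s ≤ t → t ∈ T → s ∈ T := by
    intro s t hst ht
    exact measure_mono_null (inter_subset_inter_right _ (Iio_subset_Iio hst)) ht
  have hbdd : BddAbove T := by
    by_contra hb
    apply hN
    have hall : ∀ n : ℕ, volume (S ∩ Iio (n : ℝ)) = 0 := by
      intro n
      rw [not_bddAbove_iff] at hb
      obtain ⟨t, ht, hnt⟩ := hb n
      exact hlow _ _ hnt.le ht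
    have : S = ⋃ n : ℕ, S ∩ Iio (n : ℝ) := by
      ext x
      simp only [mem_iUnion, mem_inter_iff, mem_Iio, exists_and_left]
      constructor
      · intro hx
        exact ⟨hx, exists_nat_gt x⟩
      · exact fun h => h.1
    rw [this]
    exact measure_iUnion_null hall
  set β := sSup T with hβ
  have hβ0 : 2 / 5 ≤ β := le_csSup hbdd hT0
  have hβlt : ∀ t : ℝ, t < β → t ∈ T := by
    intro t ht
    obtain ⟨s, hs, hts⟩ := exists_lt_of_lt_csSup ⟨_, hT0⟩ ht
    exact hlow _ _ hts.le hs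
  have hβnull : volume (S ∩ Iio β) = 0 := by
    have : S ∩ Iio β = ⋃ n : ℕ, S ∩ Iio (β - 1 / ((n : ℝ) + 1)) := by
      ext x
      simp only [mem_iUnion, mem_inter_iff, mem_Iio, exists_and_left]
      constructor
      · rintro ⟨hx, hxb⟩
        refine ⟨hx, ?_⟩
        obtain ⟨n, hn⟩ := exists_nat_one_div_lt (sub_pos.2 hxb)
        exact ⟨n, by linarith⟩
      · rintro ⟨hx, n, hn⟩
        refine ⟨hx, hn.trans ?_⟩
        have : (0 : ℝ) < 1 / ((n : ℝ) + 1) := Nat.one_div_pos_of_nat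
        linarith
    rw [this]
    refine measure_iUnion_null fun n => hβlt _ ?_
    have : (0 : ℝ) < 1 / ((n : ℝ) + 1) := Nat.one_div_pos_of_nat
    linarith
  have hβgt : ∀ t : ℝ, β < t → 0 < volume (S ∩ Iio t) := by
    intro t ht
    rw [pos_iff_ne_zero]
    intro h0
    exact absurd (le_csSup hbdd (show t ∈ T from h0)) (not_le.2 ht)
  have hucont : Continuous (fun t => max 0 (f t - η)) :=
    continuous_const.max (hf.sub continuous_const)
  have hev : ∀ t : ℝ, β < t → ENNReal.ofReal (f t - η) ≤ ev (fun t => max 0 (f t - η)) S := by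
    intro t ht
    have h1 := (c3 (fun t => max 0 (f t - η)) S hucont (fun t => le_max_left _ _) hS).1
      (3 / 10) t (max 0 (f t - η)) (by linarith) (le_max_left _ _) ?_ ?_ ?_
    · refine le_trans ?_ h1
      exact ENNReal.ofReal_le_ofReal (le_max_right _ _)
    · intro s hs
      refine max_le_max le_rfl ?_
      have := hanti s t (by linarith [hs.1]) hs.2.le
      linarith
    · have : S ∩ Iio t ⊆ S ∩ Ioo (3 / 10) t := by
        intro x hx
        have h2 : (2 / 5 : ℝ) < x := hsub hx.1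
        exact ⟨hx.1, by linarith, hx.2⟩
      exact lt_of_lt_of_le (hβgt t ht) (measure_mono this)
    · have : Ioo (3 / 10 : ℝ) (2 / 5) ⊆ Ioo (3 / 10) t \ S := by
        intro x hx
        refine ⟨⟨hx.1, by linarith [hx.2]⟩, fun hxS => ?_⟩
        have h2 : (2 / 5 : ℝ) < x := hsub hxS
        linarith [hx.2]
      refine lt_of_lt_of_le ?_ (measure_mono this)
      rw [Real.volume_Ioo]
      exact ENNReal.ofReal_pos.2 (by norm_num)
  have hevβ : ENNReal.ofReal (f β - η) ≤ ev (fun t => max 0 (f t - η)) S := by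
    have hc : Continuous (fun t => ENNReal.ofReal (f t - η)) :=
      ENNReal.continuous_ofReal.comp (hf.sub continuous_const)
    have ht : Tendsto (fun t => ENNReal.ofReal (f t - η)) (𝓝[>] β)
        (𝓝 (ENNReal.ofReal (f β - η))) := (hc.tendsto β).mono_left nhdsWithin_le_nhds
    refine le_of_tendsto ht ?_
    filter_upwards [self_mem_nhdsWithin] with t ht
    exact hev t ht
  set a := max β (1 / 2) with ha
  have haf : ENNReal.ofReal (f a) ≤ ev (fun t => max 0 (f t - η)) S + ENNReal.ofReal η := by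
    have h1 : f a ≤ (f β - η) + η := by
      have := hanti β a (by linarith) (le_max_left _ _)
      linarith
    calc ENNReal.ofReal (f a) ≤ ENNReal.ofReal ((f β - η) + η) := ENNReal.ofReal_le_ofReal h1
      _ ≤ ENNReal.ofReal (f β - η) + ENNReal.ofReal η := ENNReal.ofReal_add_le
      _ ≤ _ := by gcongr
  have hle : (S ∩ Ici (1 / 2) : Set ℝ) ≤ᵐ[volume] Ioi a := by
    rw [ae_le_set]
    have : (S ∩ Ici (1 / 2)) \ Ioi a ⊆ (S ∩ Iio β) ∪ {a} := by
      rintro x ⟨⟨hxS, hx1⟩, hxa⟩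
      simp only [mem_Ioi, not_lt] at hxa
      simp only [mem_Ici] at hx1
      by_cases hxb : x < β
      · exact Or.inl ⟨hxS, hxb⟩
      · right
        simp only [mem_singleton_iff]
        push Not at hxb
        exact le_antisymm hxa (max_le hxb hx1)
    refine measure_mono_null this (measure_union_null hβnull ?_)
    simp
  calc ∫⁻ t in S ∩ Ici (1 / 2), ENNReal.ofReal (f t)
      ≤ ∫⁻ t in Ioi a, ENNReal.ofReal (f t) := lintegral_mono_set' hle
    _ = ENNReal.ofReal (∫ t in Ioi a, f t) := by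
        rw [ofReal_integral_eq_lintegral_ofReal hfi.integrableOn
          (Filter.Eventually.of_forall hf0)]
    _ ≤ ENNReal.ofReal (κ * f a) := ENNReal.ofReal_le_ofReal (htail a (le_max_right _ _))
    _ = ENNReal.ofReal κ * ENNReal.ofReal (f a) := ENNReal.ofReal_mul hκ
    _ ≤ _ := by gcongr

/-! ## The truncated weight -/

lemma u_facts (w : ℂ → ℝ) (η : ℝ) (hη : 0 < η) (hw : Continuous w) (hw0 : ∀ x, 0 ≤ w x)
    (hDD : {x | 0 < w x} = DD) :
    Continuous (fun x => max 0 (w x - η)) ∧ HasCompactSupport (fun x => max 0 (w x - η)) ∧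
    tsupport (fun x => max 0 (w x - η)) ⊆ {x | 0 < w x} ∧ (∀ x, 0 ≤ max 0 (w x - η)) ∧
    (∀ x, max 0 (w x - η) ≤ w x) := by
  have hc : Continuous (fun x => max 0 (w x - η)) :=
    continuous_const.max (hw.sub continuous_const)
  have hcl : IsClosed {x | η ≤ w x} := isClosed_le continuous_const hw
  have hts : tsupport (fun x => max 0 (w x - η)) ⊆ {x | η ≤ w x} := by
    refine closure_minimal (fun x hx => ?_) hcl
    rw [Function.mem_support] at hx
    show η ≤ w x
    by_contra h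
    push Not at h
    exact hx (max_eq_left (by linarith))
  have hsub : {x | η ≤ w x} ⊆ {x | 0 < w x} := fun x hx => lt_of_lt_of_le hη hx
  have hb : Bornology.IsBounded {x | 0 < w x} := by
    rw [hDD]
    refine (isBounded_ball (x := (0 : ℂ)) (r := 1)).subset fun x hx => ?_
    rw [mem_ball_zero_iff]
    exact lt_of_le_of_lt (Complex.norm_le_abs_re_add_abs_im x) hx
  have hK : IsCompact {x | η ≤ w x} :=
    Metric.isCompact_of_isClosed_isBounded hcl (hb.subset hsub)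
  refine ⟨hc, ?_, hts.trans hsub, fun x => le_max_left _ _, fun x => max_le (hw0 x) (by linarith)⟩
  exact hK.of_isClosed_subset (isClosed_tsupport _) hts

/-! ## Geometry of the disc -/

lemma ball_re {x : ℂ} (hx : x ∈ ball (1 : ℂ) (3 / 5)) : 2 / 5 < x.re := by
  have h1 : ‖x - 1‖ < 3 / 5 := by simpa [dist_eq_norm] using hx
  have h2 := Complex.abs_re_le_norm (x - 1)
  have h3 := abs_lt.1 (lt_of_le_of_lt h2 h1)
  simp only [Complex.sub_re, Complex.one_re] at h3
  linarith [h3.1]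

lemma ball_sq {x : ℂ} (hx : x ∈ ball (1 : ℂ) (3 / 5)) :
    (x.re - 1) ^ 2 + x.im ^ 2 < 9 / 25 := by
  have h1 : ‖x - 1‖ < 3 / 5 := by simpa [dist_eq_norm] using hx
  have h2 : ‖x - 1‖ ^ 2 = (x.re - 1) ^ 2 + x.im ^ 2 := by
    rw [← Complex.normSq_eq_norm_sq, Complex.normSq_apply]
    simp only [Complex.sub_re, Complex.one_re, Complex.sub_im, Complex.one_im, sub_zero]
    ring
  rw [← h2]
  have h3 : 0 ≤ ‖x - 1‖ := norm_nonneg _
  nlinarith

lemma ball_im_half {x : ℂ} (hx : x ∈ ball (1 : ℂ) (3 / 5)) (h : x.re < 1 / 2) :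
    |x.im| < 17 / 50 := by
  have h1 := ball_sq hx
  have h2 : x.im ^ 2 < (17 / 50) ^ 2 := by nlinarith
  exact abs_lt_of_sq_lt_sq h2 (by norm_num)

lemma ball_im_DD {x : ℂ} (hx : x ∈ ball (1 : ℂ) (3 / 5)) (h : x ∈ DD) :
    |x.im| ≤ 9 / 20 := by
  have h1 := ball_sq hx
  have h2 : |x.re| + |x.im| < 1 := h
  have h3 : x.re ≤ |x.re| := le_abs_self _
  have h4 : 0 ≤ |x.im| := abs_nonneg _
  have h5 : |x.im| ^ 2 = x.im ^ 2 := sq_abs _
  have h6 : |x.im| ^ 2 < (x.re - 1) ^ 2 := by nlinarith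
  have h7 : |x.im| ^ 2 < (9 / 20) ^ 2 := by nlinarith
  exact (abs_lt_of_sq_lt_sq h7 (by norm_num)).le.trans' (by rw [abs_abs])

/-! ## The estimate -/

lemma mk_cont : Continuous (fun p : ℝ × ℝ => (⟨p.1, p.2⟩ : ℂ)) :=
  Complex.equivRealProdCLM.symm.continuous

lemma ch (y : ℝ) : Continuous (fun t : ℝ => (⟨t, y⟩ : ℂ)) :=
  mk_cont.comp (continuous_id.prodMk continuous_const)

lemma cv (x : ℝ) : Continuous (fun t : ℝ => (⟨x, t⟩ : ℂ)) :=
  mk_cont.comp (continuous_const.prodMk continuous_id)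

lemma real_bd {x y e f P : ℝ} (hx : 0 ≤ x) (hy : 0 ≤ y) (h1 : 48 / 100 * y ≤ e)
    (h2 : 2 * (48 / 100) * x ≤ f) (h3 : e + f ≤ √2 * P) (hP : 0 ≤ P) :
    x * y ≤ 11 / 10 * P ^ 2 := by
  have he : 0 ≤ e := by linarith
  have hf : 0 ≤ f := by linarith
  have h4 : (e + f) ^ 2 ≤ 2 * P ^ 2 := by
    have h5 : (e + f) ^ 2 ≤ (√2 * P) ^ 2 := by
      apply pow_le_pow_left₀ (by linarith) h3
    rw [mul_pow, Real.sq_sqrt (by norm_num)] at h5
    exact h5
  have h6 : (48 / 100 * y) * (2 * (48 / 100) * x) ≤ e * f :=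
    mul_le_mul h1 h2 (by positivity) he
  nlinarith [sq_nonneg (e - f), mul_nonneg hx hy, sq_nonneg P]

lemma core (c2 : S_C2) (c3 : S_C3) (w : ℂ → ℝ) (hw : Continuous w) (hw0 : ∀ x, 0 ≤ w x)
    (hw1 : ∀ x, w x ≤ 1) (hDD : {x | 0 < w x} = DD)
    (hanti : ∀ a a' b : ℝ, 0 ≤ a → a ≤ a' → w ⟨a', b⟩ ≤ w ⟨a, b⟩) (κ : ℝ) (hκ : 0 ≤ κ)
    (hbulk : ∀ x : ℂ, |x.re| ≤ 1 / 2 → |x.im| ≤ 2 / 5 → 49 / 100 ≤ w x)
    (htail : ∀ a b : ℝ, 1 / 2 ≤ a → |b| ≤ 9 / 20 → ∫ t in Ioi a, w ⟨t, b⟩ ≤ κ * w ⟨a, b⟩)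
    (G : Set ℂ) (P : ℝ) (hG : MeasurableSet G) (hGb : G ⊆ ball 1 (3 / 5)) (hP : 0 ≤ P)
    (hPW : PW w G P) (η : ℝ) (hη : 0 < η) (hη1 : η ≤ 1 / 100) :
    mu w G ≤ 11 / 10 * P ^ 2 + κ * (√2 * P + 9 / 10 * η) := by
  obtain ⟨hu1, hu2, hu3, hu4, hu5⟩ := u_facts w η hη hw hw0 hDD
  have hE := c2 w (fun x => max 0 (w x - η)) G P hw hw0 hu1 hu2 hu3 hu4 hu5 hG hPW
  set e1 : ℝ → ℝ≥0∞ := fun y => ev (fun t => max 0 (w ⟨t, y⟩ - η)) {t | (⟨t, y⟩ : ℂ) ∈ G}
    with he1
  set e2 : ℝ → ℝ≥0∞ := fun x => ev (fun t => max 0 (w ⟨x, t⟩ - η)) {t | (⟨x, t⟩ : ℂ) ∈ G}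
    with he2
  have hE' : (∫⁻ y, e1 y) + ∫⁻ x, e2 x ≤ ENNReal.ofReal (√2 * P) := hE
  -- the bulk
  set G' : Set ℂ := G ∩ {z | z.re < 1 / 2} with hG'
  have hG'm : MeasurableSet G' := hG.inter (Complex.measurable_re measurableSet_Iio)
  have hB : ∀ y ∈ prB G', ENNReal.ofReal (48 / 100) ≤ e1 y := by
    intro y hy
    have hy0 : 0 < volume {x : ℝ | (⟨x, y⟩ : ℂ) ∈ G'} := hy
    obtain ⟨t, ht⟩ := nonempty_of_measure_ne_zero hy0.ne'
    have hy1 : |y| < 17 / 50 := ball_im_half (hGb ht.1) ht.2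
    have hcont : Continuous (fun t : ℝ => max 0 (w ⟨t, y⟩ - η)) := hu1.comp (ch y)
    have h1 := (c3 (fun t => max 0 (w ⟨t, y⟩ - η)) {t | (⟨t, y⟩ : ℂ) ∈ G} hcont
      (fun t => le_max_left _ _) (mh y hG)).1 (3 / 10) (1 / 2) (48 / 100) (by norm_num)
      (by norm_num) ?_ ?_ ?_
    · exact h1
    · intro s hs
      have h2 := hbulk ⟨s, y⟩ (by
        show |s| ≤ 1 / 2
        rw [abs_of_nonneg (by linarith [hs.1])]
        exact hs.2.le) (by
        show |y| ≤ 2 / 5
        linarith)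
      exact le_max_of_le_right (by linarith)
    · refine lt_of_lt_of_le hy0 (measure_mono ?_)
      intro s hs
      have h2 : 2 / 5 < s := ball_re (hGb hs.1)
      have h3 : s < 1 / 2 := hs.2
      exact ⟨hs.1, by linarith, h3⟩
    · have hsub : Ioo (3 / 10 : ℝ) (2 / 5) ⊆ Ioo (3 / 10) (1 / 2) \ {t | (⟨t, y⟩ : ℂ) ∈ G} := by
        intro s hs
        refine ⟨⟨hs.1, by linarith [hs.2]⟩, fun hsG => ?_⟩
        have h2 : 2 / 5 < s := ball_re (hGb hsG)
        linarith [hs.2]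
      refine lt_of_lt_of_le ?_ (measure_mono hsub)
      rw [Real.volume_Ioo]
      exact ENNReal.ofReal_pos.2 (by norm_num)
  have hA : ∀ x ∈ prA G', ENNReal.ofReal (2 * (48 / 100)) ≤ e2 x := by
    intro x hx
    have hx0 : 0 < volume {y : ℝ | (⟨x, y⟩ : ℂ) ∈ G'} := hx
    obtain ⟨t, ht⟩ := nonempty_of_measure_ne_zero hx0.ne'
    have hx1 : 2 / 5 < x := ball_re (hGb ht.1)
    have hx2 : x < 1 / 2 := ht.2
    have himm : ∀ y : ℝ, (⟨x, y⟩ : ℂ) ∈ G → |y| < 17 / 50 := fun y hy =>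
      ball_im_half (hGb hy) hx2
    have hcont : Continuous (fun t : ℝ => max 0 (w ⟨x, t⟩ - η)) := hu1.comp (cv x)
    have h1 := (c3 (fun t => max 0 (w ⟨x, t⟩ - η)) {t | (⟨x, t⟩ : ℂ) ∈ G} hcont
      (fun t => le_max_left _ _) (mv x hG)).2.2 (-(2 / 5)) (-(17 / 50)) (17 / 50) (2 / 5)
      (48 / 100) (by norm_num) (by norm_num) (by norm_num) (by norm_num) ?_ ?_ ?_ ?_
    · exact h1
    · intro s hs
      have h2 := hbulk ⟨x, s⟩ (by
        show |x| ≤ 1 / 2
        rw [abs_of_nonneg (by linarith)]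
        exact hx2.le) (by
        show |s| ≤ 2 / 5
        exact abs_le.2 ⟨hs.1.le, hs.2.le⟩)
      exact le_max_of_le_right (by linarith)
    · have hsub : Ioo (-(2 / 5) : ℝ) (-(17 / 50)) ⊆
          Ioo (-(2 / 5)) (-(17 / 50)) \ {t | (⟨x, t⟩ : ℂ) ∈ G} := by
        intro s hs
        refine ⟨hs, fun hsG => ?_⟩
        have h2 := (abs_lt.1 (himm s hsG)).1
        linarith [hs.2]
      refine lt_of_lt_of_le ?_ (measure_mono hsub)
      rw [Real.volume_Ioo]
      exact ENNReal.ofReal_pos.2 (by norm_num)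
    · refine lt_of_lt_of_le hx0 (measure_mono ?_)
      intro s hs
      have h2 := abs_lt.1 (himm s hs.1)
      exact ⟨hs.1, h2.1, h2.2⟩
    · have hsub : Ioo (17 / 50 : ℝ) (2 / 5) ⊆
          Ioo (17 / 50) (2 / 5) \ {t | (⟨x, t⟩ : ℂ) ∈ G} := by
        intro s hs
        refine ⟨hs, fun hsG => ?_⟩
        have h2 := (abs_lt.1 (himm s hsG)).2
        linarith [hs.1]
      refine lt_of_lt_of_le ?_ (measure_mono hsub)
      rw [Real.volume_Ioo]
      exact ENNReal.ofReal_pos.2 (by norm_num)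
  have hB' : ENNReal.ofReal (48 / 100) * volume (prB G') ≤ ∫⁻ y, e1 y := by
    rw [← lintegral_indicator_const (prB_meas G' hG'm)]
    refine lintegral_mono fun y => ?_
    by_cases hy : y ∈ prB G'
    · simpa only [indicator_of_mem hy] using hB y hy
    · simp only [indicator_of_notMem hy]
      exact zero_le
  have hA' : ENNReal.ofReal (2 * (48 / 100)) * volume (prA G') ≤ ∫⁻ x, e2 x := by
    rw [← lintegral_indicator_const (prA_meas G' hG'm)]
    refine lintegral_mono fun y => ?_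
    by_cases hy : y ∈ prA G'
    · simpa only [indicator_of_mem hy] using hA y hy
    · simp only [indicator_of_notMem hy]
      exact zero_le
  have hE1f : (∫⁻ y, e1 y) ≠ ∞ :=
    ne_top_of_le_ne_top ENNReal.ofReal_ne_top (le_self_add.trans hE')
  have hE2f : (∫⁻ y, e2 y) ≠ ∞ :=
    ne_top_of_le_ne_top ENNReal.ofReal_ne_top (le_add_self.trans hE')
  have hBf : volume (prB G') ≠ ∞ := by
    intro h
    rw [h, ENNReal.mul_top (by
      rw [Ne, ENNReal.ofReal_eq_zero, not_le]; norm_num)] at hB'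
    exact hE1f (top_le_iff.1 hB')
  have hAf : volume (prA G') ≠ ∞ := by
    intro h
    rw [h, ENNReal.mul_top (by
      rw [Ne, ENNReal.ofReal_eq_zero, not_le]; norm_num)] at hA'
    exact hE2f (top_le_iff.1 hA')
  have hG'v : volume G' ≤ ENNReal.ofReal (11 / 10 * P ^ 2) := by
    refine (prod_bound G' hG'm).trans ?_
    have h1 : 48 / 100 * (volume (prB G')).toReal ≤ (∫⁻ y, e1 y).toReal := by
      have := ENNReal.toReal_mono hE1f hB'
      rwa [ENNReal.toReal_mul, ENNReal.toReal_ofReal (by norm_num)] at this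
    have h2 : 2 * (48 / 100) * (volume (prA G')).toReal ≤ (∫⁻ y, e2 y).toReal := by
      have := ENNReal.toReal_mono hE2f hA'
      rwa [ENNReal.toReal_mul, ENNReal.toReal_ofReal (by norm_num)] at this
    have h3 : (∫⁻ y, e1 y).toReal + (∫⁻ y, e2 y).toReal ≤ √2 * P := by
      rw [← ENNReal.toReal_add hE1f hE2f]
      exact ENNReal.toReal_le_of_le_ofReal (by positivity) hE'
    have h4 := real_bd ENNReal.toReal_nonneg ENNReal.toReal_nonneg h1 h2 h3 hP
    rw [← ENNReal.toReal_mul] at h4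
    exact (ENNReal.le_ofReal_iff_toReal_le (ENNReal.mul_ne_top hAf hBf) (by positivity)).2 h4
  -- the tail
  set G'' : Set ℂ := G ∩ {z | 1 / 2 ≤ z.re} with hG''
  have hG''m : MeasurableSet G'' := hG.inter (Complex.measurable_re measurableSet_Ici)
  have hwm : Measurable (fun z => ENNReal.ofReal (w z)) := hw.measurable.ennreal_ofReal
  have hT : ∫⁻ z in G'', ENNReal.ofReal (w z) ≤
      ENNReal.ofReal κ * (ENNReal.ofReal (√2 * P) + ENNReal.ofReal η * ENNReal.ofReal (9 / 10)) := by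
    rw [← lintegral_indicator hG''m, fub_h _ (hwm.indicator hG''m)]
    have hline : ∀ y : ℝ, ∫⁻ x : ℝ, G''.indicator (fun z => ENNReal.ofReal (w z)) ⟨x, y⟩ ≤
        ENNReal.ofReal κ * (e1 y +
          (Icc (-(9 / 20)) (9 / 20) : Set ℝ).indicator (fun _ => ENNReal.ofReal η) y) := by
      intro y
      by_cases hy : |y| ≤ 9 / 20
      · have hyI : y ∈ (Icc (-(9 / 20)) (9 / 20) : Set ℝ) := abs_le.1 hy
        rw [indicator_of_mem hyI]
        have hSm : MeasurableSet {t : ℝ | (⟨t, y⟩ : ℂ) ∈ G} := mh y hG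
        have heq : (fun x : ℝ => G''.indicator (fun z => ENNReal.ofReal (w z)) (⟨x, y⟩ : ℂ)) =
            ({t : ℝ | (⟨t, y⟩ : ℂ) ∈ G} ∩ Ici (1 / 2)).indicator
              (fun t => ENNReal.ofReal (w ⟨t, y⟩)) := by
          funext x
          by_cases hx : (⟨x, y⟩ : ℂ) ∈ G''
          · rw [indicator_of_mem hx, indicator_of_mem (show x ∈ {t : ℝ | (⟨t, y⟩ : ℂ) ∈ G} ∩
              Ici (1 / 2) from hx)]
          · rw [indicator_of_notMem hx, indicator_of_notMem (show x ∉ {t : ℝ | (⟨t, y⟩ : ℂ) ∈ G} ∩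
              Ici (1 / 2) from hx)]
        rw [heq, lintegral_indicator (hSm.inter measurableSet_Ici)]
        have hfc : Continuous (fun t : ℝ => w ⟨t, y⟩) := hw.comp (ch y)
        have hfi : Integrable (fun t : ℝ => w ⟨t, y⟩) := by
          refine hfc.integrable_of_hasCompactSupport ?_
          refine HasCompactSupport.intro (isCompact_Icc (a := (-1 : ℝ)) (b := 1)) ?_
          intro t ht
          by_contra hne
          apply ht
          have h1 : (⟨t, y⟩ : ℂ) ∈ {x | 0 < w x} := lt_of_le_of_ne (hw0 _) (Ne.symm hne)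
          rw [hDD] at h1
          have h2 : |t| + |y| < 1 := h1
          have h3 : |t| ≤ 1 := by linarith [abs_nonneg y]
          exact abs_le.1 h3
        exact line_tail c3 (fun t => w ⟨t, y⟩) {t : ℝ | (⟨t, y⟩ : ℂ) ∈ G} η κ hfc
          (fun t => hw0 _) hfi (fun a a' => hanti a a' y) hSm (fun t ht => ball_re (hGb ht)) hκ
          (fun a ha => htail a y ha hy)
      · have hz : ∀ x : ℝ, G''.indicator (fun z => ENNReal.ofReal (w z)) (⟨x, y⟩ : ℂ) = 0 := by
          intro x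
          by_cases hx : (⟨x, y⟩ : ℂ) ∈ G''
          · rw [indicator_of_mem hx]
            by_contra hne
            apply hy
            have h1 : (⟨x, y⟩ : ℂ) ∈ {x | 0 < w x} := by
              by_contra hn
              apply hne
              rw [ENNReal.ofReal_eq_zero]
              exact not_lt.1 hn
            rw [hDD] at h1
            exact ball_im_DD (hGb hx.1) h1
          · exact indicator_of_notMem hx _
        simp only [hz, lintegral_zero]
        exact zero_le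
    refine (lintegral_mono hline).trans ?_
    rw [lintegral_const_mul' _ _ ENNReal.ofReal_ne_top,
      lintegral_add_right _ (measurable_const.indicator measurableSet_Icc),
      lintegral_indicator_const measurableSet_Icc, Real.volume_Icc]
    have h1 : (9 / 20 - -(9 / 20) : ℝ) = 9 / 10 := by norm_num
    rw [h1]
    gcongr
    exact le_self_add.trans hE'
  have hM : ∫⁻ z in G, ENNReal.ofReal (w z) ≤
      ENNReal.ofReal (11 / 10 * P ^ 2 + κ * (√2 * P + 9 / 10 * η)) := by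
    have hGG : G ⊆ G' ∪ G'' := by
      intro z hz
      by_cases h : z.re < 1 / 2
      · exact Or.inl ⟨hz, h⟩
      · exact Or.inr ⟨hz, not_lt.1 h⟩
    have h1 : ∫⁻ z in G', ENNReal.ofReal (w z) ≤ volume G' := by
      calc ∫⁻ z in G', ENNReal.ofReal (w z) ≤ ∫⁻ z in G', 1 := by
            refine lintegral_mono fun z => ?_
            exact ENNReal.ofReal_le_one.2 (hw1 z)
        _ = volume G' := by simp
    calc ∫⁻ z in G, ENNReal.ofReal (w z) ≤ ∫⁻ z in G' ∪ G'', ENNReal.ofReal (w z) :=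
          lintegral_mono_set hGG
      _ ≤ (∫⁻ z in G', ENNReal.ofReal (w z)) + ∫⁻ z in G'', ENNReal.ofReal (w z) :=
          lintegral_union_le _ _ _
      _ ≤ ENNReal.ofReal (11 / 10 * P ^ 2) + ENNReal.ofReal κ *
          (ENNReal.ofReal (√2 * P) + ENNReal.ofReal η * ENNReal.ofReal (9 / 10)) :=
          add_le_add (h1.trans hG'v) hT
      _ = ENNReal.ofReal (11 / 10 * P ^ 2 + κ * (√2 * P + 9 / 10 * η)) := by
          rw [← ENNReal.ofReal_mul hη.le, ← ENNReal.ofReal_add (by positivity) (by positivity),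
            ← ENNReal.ofReal_mul hκ, ← ENNReal.ofReal_add (by positivity) (by positivity)]
          congr 1
          ring
  have hmu : mu w G = (∫⁻ z in G, ENNReal.ofReal (w z)).toReal := by
    unfold mu
    exact integral_eq_lintegral_of_nonneg_ae (Filter.Eventually.of_forall hw0)
      hw.aestronglyMeasurable
  rw [hmu]
  exact ENNReal.toReal_le_of_le_ofReal (by positivity) hM

/-- **C5.** -/
theorem c5 (c0 : S_C0) (c1 : S_C1) (c2 : S_C2) (c3 : S_C3) : S_C5 := by
  obtain ⟨-, m₀, hm₀⟩ := c1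
  refine ⟨max m₀ 1, fun m hm G P hG hGb hP hPW => ?_⟩
  have hm1 : 1 ≤ m := (le_max_right _ _).trans hm
  obtain ⟨h1, -, h3⟩ := hm₀ m ((le_max_left _ _).trans hm)
  obtain ⟨-, hc, hw0, hw1, hDD, -, -, -, -, -, hanti, -⟩ := c0 m hm1
  have hs : 0 < √(m : ℝ) := Real.sqrt_pos.2 (by exact_mod_cast hm1)
  set κ : ℝ := 2 / 5 / √m with hκ
  have hκ0 : 0 ≤ κ := by positivity
  have hkey : ∀ η : ℝ, 0 < η → η ≤ 1 / 100 →
      mu (wt m) G ≤ 11 / 10 * P ^ 2 + κ * (√2 * P + 9 / 10 * η) := fun η hη hη1 =>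
    core c2 c3 (wt m) hc hw0 hw1 hDD hanti κ hκ0 h1 h3 G P hG hGb hP hPW η hη hη1
  have h2 : √2 ≤ 3 / 2 := by
    rw [Real.sqrt_le_left (by norm_num)]
    norm_num
  have h4 : κ * (√2 * P) ≤ P / √m := by
    have h5 : κ * (√2 * P) = (2 / 5 * √2) * (P / √m) := by
      rw [hκ]
      ring
    rw [h5]
    have h6 : 0 ≤ P / √m := by positivity
    have h7 : 2 / 5 * √2 ≤ 1 := by linarith
    calc 2 / 5 * √2 * (P / √m) ≤ 1 * (P / √m) := by gcongr
      _ = P / √m := one_mul _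
  refine le_of_forall_pos_le_add fun ε hε => ?_
  have hη : 0 < min (1 / 100) (ε / (κ + 1)) := lt_min (by norm_num) (by positivity)
  have h8 := hkey _ hη (min_le_left _ _)
  have h9 : κ * (9 / 10 * min (1 / 100) (ε / (κ + 1))) ≤ ε := by
    have h10 : min (1 / 100) (ε / (κ + 1)) ≤ ε / (κ + 1) := min_le_right _ _
    have h11 : κ * (9 / 10 * min (1 / 100) (ε / (κ + 1))) ≤ κ * (ε / (κ + 1)) := by
      gcongr
      linarith
    refine h11.trans ?_
    rw [mul_div_assoc', div_le_iff₀ (by positivity)]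
    nlinarith
  calc mu (wt m) G ≤ _ := h8
    _ = 11 / 10 * P ^ 2 + κ * (√2 * P) + κ * (9 / 10 * min (1 / 100) (ε / (κ + 1))) := by ring
    _ ≤ 11 / 10 * P ^ 2 + P / √m + ε := by linarith

end Pool.Agent.TH946.HU
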